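import Pool.Agent.FHQ.StmtsU

open scoped BigOperators

noncomputable section

namespace Pool.Agent.FHQ.H23

theorem dsc : DscStmt := by
  classical
  intro L _ f m α a hm hα hα' ha
  set αi : Fin m → L := fun i => (⇑f)^[(i : ℕ)] α with hαi
  have hinj : Function.Injective αi := by
    have hinjf : Function.Injective f := f.injective
    have key : ∀ i j : ℕ, i < j → j < m → (⇑f)^[i] α ≠ (⇑f)^[j] α := by
      intro i j hij hj heq
      have h1 : (⇑f)^[j] α = (⇑f)^[i] ((⇑f)^[j - i] α) := by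
        rw [← Function.iterate_add_apply]
        congr 1
        congr 1
        omega
      rw [h1] at heq
      have h2 := (hinjf.iterate i) heq
      exact hα' (j - i) (by omega) (by omega) h2.symm
    intro i j hij
    by_contra hne
    have hne' : (i : ℕ) ≠ j := fun h => hne (Fin.ext h)
    rcases lt_or_gt_of_ne hne' with h | h
    · exact key i j h j.2 hij
    · exact key j i h i.2 hij.symm
  set S : Subfield L := Subfield.closure (Set.range fun i : ℕ => (⇑f)^[i] α) with hS
  have hmem : ∀ i : Fin m, αi i ∈ S := fun i => Subfield.subset_closure ⟨i, rfl⟩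
  -- Vandermonde over the subfield
  let β : Fin m → S := fun i => ⟨αi i, hmem i⟩
  have hβ : Function.Injective β := fun i j h => hinj (Subtype.ext_iff.1 h)
  have hdet : (Matrix.vandermonde β).det ≠ 0 := Matrix.det_vandermonde_ne_zero_iff.2 hβ
  -- c : row vector with c ᵥ* (V^T) = e_0, i.e. ∑_j c j * β i ^ j = δ_{i0}
  let e : Fin m → S := fun i => if (i : ℕ) = 0 then 1 else 0
  let c : Fin m → S := (Matrix.vandermonde β)⁻¹.mulVec e
  have hc : (Matrix.vandermonde β).mulVec c = e := by
    show (Matrix.vandermonde β).mulVec ((Matrix.vandermonde β)⁻¹.mulVec e) = e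
    rw [Matrix.mulVec_mulVec, Matrix.mul_nonsing_inv _ (isUnit_iff_ne_zero.2 hdet),
      Matrix.one_mulVec]
  have hc' : ∀ i : Fin m, ∑ j : Fin m, (β i) ^ (j : ℕ) * c j = if (i : ℕ) = 0 then 1 else 0 := by
    intro i
    have := congrFun hc i
    simpa [Matrix.mulVec, dotProduct, Matrix.vandermonde] using this
  refine ⟨fun j => (c j : L), fun j => (c j).2, ?_⟩
  have h3 : ∀ i : Fin m, ∑ j : Fin m, (αi i) ^ (j : ℕ) * (c j : L) =
      if (i : ℕ) = 0 then 1 else 0 := by
    intro i
    have h4 := congrArg (Subtype.val) (hc' i)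
    rw [AddSubmonoidClass.coe_finset_sum] at h4
    have h5 : ∀ j : Fin m, (((β i) ^ (j : ℕ) * c j : S) : L) = (αi i) ^ (j : ℕ) * (c j : L) :=
      fun j => rfl
    simp only [h5] at h4
    rw [h4]
    split_ifs <;> rfl
  have h6 : ∀ j : Fin m, (c j : L) * ∑ i ∈ Finset.range m, (⇑f)^[i] (α ^ (j : ℕ) * a) =
      ∑ i : Fin m, (αi i) ^ (j : ℕ) * (c j : L) * (⇑f)^[(i : ℕ)] a := by
    intro j
    rw [Finset.sum_range, Finset.mul_sum]
    refine Finset.sum_congr rfl fun i _ => ?_
    rw [iterate_map_mul, iterate_map_pow]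
    show (c j : L) * (αi i ^ (j : ℕ) * _) = _
    ring
  rw [Finset.sum_congr rfl fun j _ => h6 j, Finset.sum_comm]
  have h7 : ∀ i : Fin m, ∑ j : Fin m, (αi i) ^ (j : ℕ) * (c j : L) * (⇑f)^[(i : ℕ)] a =
      (if (i : ℕ) = 0 then 1 else 0) * (⇑f)^[(i : ℕ)] a := by
    intro i
    rw [← Finset.sum_mul, h3 i]
  rw [Finset.sum_congr rfl fun i _ => h7 i]
  rw [Finset.sum_eq_single (⟨0, hm⟩ : Fin m)]
  · simp
  · intro i _ hi
    have : (i : ℕ) ≠ 0 := fun h => hi (Fin.ext h)
    simp [this]
  · intro h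
    exact absurd (Finset.mem_univ _) h

end Pool.Agent.FHQ.H23
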