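import Pool.Agent.FHQ.StmtsP

open scoped BigOperators

noncomputable section

namespace Pool.Agent.FHQ.H23

open Polynomial

variable {p : ℕ} [Fact p.Prime] {K : Type} [Field K] (A : AcF0 p K)

open Classical in
/-- the residue at level `μ` -/
def lr (μ : ℤ) (x : K) : ZMod p := if x ≠ 0 ∧ A.v x = μ then A.ac x else 0

/-- level at least `μ` -/
def ge (μ : ℤ) (x : K) : Prop := x = 0 ∨ μ ≤ A.v x

theorem lr_zero (μ : ℤ) : lr A μ (0 : K) = 0 := by
  unfold lr
  rw [if_neg (fun h => h.1 rfl)]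

theorem add_ge (μ : ℤ) (x y : K) (hx : ge A μ x) (hy : ge A μ y) :
    ge A μ (x + y) ∧ lr A μ (x + y) = lr A μ x + lr A μ y := by
  classical
  by_cases hx0 : x = 0
  · subst hx0
    rw [zero_add, lr_zero, zero_add]
    exact ⟨hy, rfl⟩
  by_cases hy0 : y = 0
  · subst hy0
    rw [add_zero, lr_zero, add_zero]
    exact ⟨hx, rfl⟩
  have hx' : μ ≤ A.v x := hx.resolve_left hx0
  have hy' : μ ≤ A.v y := hy.resolve_left hy0
  have hacx : A.ac x ≠ 0 := fun h => hx0 ((A.ac_zero x).1 h)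
  have hacy : A.ac y ≠ 0 := fun h => hy0 ((A.ac_zero y).1 h)
  have main : ∀ x y : K, x ≠ 0 → y ≠ 0 → A.ac x ≠ 0 → A.ac y ≠ 0 → μ ≤ A.v x → A.v x < A.v y →
      ge A μ (x + y) ∧ lr A μ (x + y) = lr A μ x + lr A μ y := by
    intro x y hx0 hy0 hacx hacy hx' hlt
    obtain ⟨h1, h2⟩ := A.add_lt x y hx0 hy0 hlt
    have hne : x + y ≠ 0 := by
      intro h
      rw [h] at h2
      rw [(A.ac_zero 0).2 rfl] at h2
      exact hacx h2.symm
    refine ⟨Or.inr (by rw [h1]; exact hx'), ?_⟩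
    unfold lr
    rw [if_neg (show ¬ (y ≠ 0 ∧ A.v y = μ) from fun h => by omega), add_zero]
    by_cases h3 : A.v x = μ
    · rw [if_pos ⟨hne, by rw [h1]; exact h3⟩, if_pos ⟨hx0, h3⟩, h2]
    · rw [if_neg (fun h => h3 (by rw [← h1]; exact h.2)), if_neg (fun h => h3 h.2)]
  rcases lt_trichotomy (A.v x) (A.v y) with hlt | heq | hgt
  · exact main x y hx0 hy0 hacx hacy hx' hlt
  · by_cases hs : A.ac x + A.ac y = 0
    · rcases A.add_gt x y hx0 hy0 heq hs with h1 | h1
      · rw [h1, lr_zero]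
        refine ⟨Or.inl rfl, ?_⟩
        unfold lr
        by_cases h3 : A.v x = μ
        · rw [if_pos ⟨hx0, h3⟩, if_pos ⟨hy0, by rw [← heq]; exact h3⟩, hs]
        · rw [if_neg (fun h => h3 h.2), if_neg (fun h => h3 (by rw [heq]; exact h.2)), add_zero]
      · refine ⟨Or.inr (by omega), ?_⟩
        unfold lr
        rw [if_neg (show ¬ (x + y ≠ 0 ∧ A.v (x + y) = μ) from fun h => by omega)]
        by_cases h3 : A.v x = μ
        · rw [if_pos ⟨hx0, h3⟩, if_pos ⟨hy0, by rw [← heq]; exact h3⟩, hs]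
        · rw [if_neg (fun h => h3 h.2), if_neg (fun h => h3 (by rw [heq]; exact h.2)), add_zero]
    · obtain ⟨h1, h2⟩ := A.add_eq x y hx0 hy0 heq hs
      have hne : x + y ≠ 0 := by
        intro h
        rw [h] at h2
        rw [(A.ac_zero 0).2 rfl] at h2
        exact hs h2.symm
      refine ⟨Or.inr (by rw [h1]; exact hx'), ?_⟩
      unfold lr
      by_cases h3 : A.v x = μ
      · rw [if_pos ⟨hne, by rw [h1]; exact h3⟩, if_pos ⟨hx0, h3⟩,
          if_pos ⟨hy0, by rw [← heq]; exact h3⟩, h2]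
      · rw [if_neg (fun h => h3 (by rw [← h1]; exact h.2)), if_neg (fun h => h3 h.2),
          if_neg (fun h => h3 (by rw [heq]; exact h.2)), add_zero]
  · have := main y x hy0 hx0 hacy hacx hy' hgt
    rw [add_comm y x] at this
    rw [add_comm (lr A μ x)]
    exact this

theorem sum_ge {ι : Type} (s : Finset ι) (μ : ℤ) (x : ι → K) (h : ∀ i ∈ s, ge A μ (x i)) :
    ge A μ (∑ i ∈ s, x i) ∧ lr A μ (∑ i ∈ s, x i) = ∑ i ∈ s, lr A μ (x i) := by
  classical
  induction s using Finset.induction_on with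
  | empty =>
    rw [Finset.sum_empty, Finset.sum_empty, lr_zero]
    exact ⟨Or.inl rfl, rfl⟩
  | insert a s ha ih =>
    have h1 := ih fun i hi => h i (Finset.mem_insert_of_mem hi)
    have h2 := add_ge A μ (x a) (∑ i ∈ s, x i) (h a (Finset.mem_insert_self a s)) h1.1
    rw [Finset.sum_insert ha, Finset.sum_insert ha, h2.2, h1.2]
    exact ⟨h2.1, rfl⟩

theorem pow_val (hres : ResStmt) (t : K) (ht : t ≠ 0) (k : ℕ) :
    A.ac (t ^ k) = A.ac t ^ k ∧ A.v (t ^ k) = k * A.v t := by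
  induction k with
  | zero =>
    have h := hres p K A
    rw [pow_zero, pow_zero]
    exact ⟨h.1, by rw [h.2.1]; simp⟩
  | succ k ih =>
    rw [pow_succ, pow_succ, A.ac_mul, A.v_mul _ _ (pow_ne_zero k ht) ht, ih.1, ih.2]
    refine ⟨rfl, ?_⟩
    push_cast
    ring

theorem exp (hres : ResStmt) : ExpStmt := by
  classical
  intro p _ K _ A W D hW hD t ht
  set a := A.cac D W with ha
  set s := A.cv D W with hs
  set g := A.v t with hg
  set z := A.ac t with hz
  -- an argument index exists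
  have hex : ∃ k : Fin D, Arg a s g k := by
    have hne : (Finset.univ.filter fun k : Fin D => a k ≠ 0).Nonempty := by
      refine ⟨⟨W.natDegree, hD⟩, ?_⟩
      rw [Finset.mem_filter]
      refine ⟨Finset.mem_univ _, fun h => ?_⟩
      have h1 : W.coeff W.natDegree = 0 := (A.ac_zero _).1 h
      exact hW (leadingCoeff_eq_zero.1 h1)
    obtain ⟨k, hk, hmin⟩ := Finset.exists_min_image _ (fun k : Fin D => s k + (k : ℕ) * g) hne
    rw [Finset.mem_filter] at hk
    exact ⟨k, hk.2, fun l hl => hmin l (Finset.mem_filter.2 ⟨Finset.mem_univ _, hl⟩)⟩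
  have hMu : ∀ k, Arg a s g k → Mu a s g = s k + (k : ℕ) * g := by
    intro k hk
    unfold Mu
    rw [dif_pos hex]
    exact le_antisymm (hex.choose_spec.2 k hk.1) (hk.2 _ hex.choose_spec.1)
  set μ := Mu a s g with hμ
  have hev : W.eval t = ∑ k : Fin D, W.coeff k * t ^ (k : ℕ) := by
    rw [eval_eq_sum_range' hD, Finset.sum_range]
  -- every term
  have hterm : ∀ k : Fin D, ge A μ (W.coeff k * t ^ (k : ℕ)) ∧
      lr A μ (W.coeff k * t ^ (k : ℕ)) = if Arg a s g k then a k * z ^ (k : ℕ) else 0 := by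
    intro k
    by_cases hk : W.coeff k = 0
    · rw [hk, zero_mul, lr_zero]
      refine ⟨Or.inl rfl, ?_⟩
      rw [if_neg]
      intro h
      exact h.1 ((A.ac_zero _).2 hk)
    have hak : a k ≠ 0 := fun h => hk ((A.ac_zero _).1 h)
    have htk : t ^ (k : ℕ) ≠ 0 := pow_ne_zero _ ht
    have hp := pow_val A hres t ht k
    have hv : A.v (W.coeff k * t ^ (k : ℕ)) = s k + (k : ℕ) * g := by
      rw [A.v_mul _ _ hk htk, hp.2]
      rfl
    have hac : A.ac (W.coeff k * t ^ (k : ℕ)) = a k * z ^ (k : ℕ) := by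
      rw [A.ac_mul, hp.1]
      rfl
    obtain ⟨k0, hk0⟩ := hex
    have hm0 := hMu k0 hk0
    have hle : μ ≤ s k + (k : ℕ) * g := by
      rw [hm0]
      exact hk0.2 k hak
    refine ⟨Or.inr (by rw [hv]; exact hle), ?_⟩
    unfold lr
    by_cases hA : Arg a s g k
    · rw [if_pos hA, if_pos ⟨mul_ne_zero hk htk, by rw [hv, hMu k hA]⟩, hac]
    · rw [if_neg hA, if_neg]
      rintro ⟨_, h2⟩
      rw [hv] at h2
      apply hA
      refine ⟨hak, fun l hl => ?_⟩
      rw [h2, hm0]
      exact hk0.2 l hl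
  have hsum := sum_ge A Finset.univ μ (fun k : Fin D => W.coeff k * t ^ (k : ℕ))
    fun k _ => (hterm k).1
  have hlr : lr A μ (W.eval t) = Sp a s g z := by
    rw [hev, hsum.2]
    unfold Sp
    exact Finset.sum_congr rfl fun k _ => (hterm k).2
  have hge : ge A μ (W.eval t) := by
    rw [hev]
    exact hsum.1
  constructor
  · intro hne
    rw [← hlr] at hne ⊢
    unfold lr at hne ⊢
    by_cases h : W.eval t ≠ 0 ∧ A.v (W.eval t) = μ
    · rw [if_pos h]
      exact ⟨h.1, rfl, h.2⟩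
    · rw [if_neg h] at hne
      exact absurd rfl hne
  · intro h0
    rw [← hlr] at h0
    by_cases he : W.eval t = 0
    · exact Or.inl he
    · refine Or.inr (lt_of_le_of_ne (hge.resolve_left he) ?_)
      intro h
      unfold lr at h0
      rw [if_pos ⟨he, h.symm⟩] at h0
      exact he ((A.ac_zero _).1 h0)

end Pool.Agent.FHQ.H23
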