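import Pool.Agent.FHQ.StmtsP

open scoped BigOperators

noncomputable section

namespace Pool.Agent.FHQ.H23

open Polynomial

section

variable {p : ℕ} {D : ℕ}

open Classical in
/-- the polynomial of the leading terms -/
def RR (a : Fin D → ZMod p) (s : Fin D → ℤ) (g : ℤ) : (ZMod p)[X] :=
  ∑ k : Fin D, if Arg a s g k then C (a k) * X ^ (k : ℕ) else 0

open Classical in
theorem RR_coeff (a : Fin D → ZMod p) (s : Fin D → ℤ) (g : ℤ) (k : ℕ) :
    (RR a s g).coeff k = if h : k < D then (if Arg a s g ⟨k, h⟩ then a ⟨k, h⟩ else 0) else 0 := by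
  unfold RR
  rw [finsetSum_coeff]
  have h1 : ∀ b : Fin D, (if Arg a s g b then C (a b) * X ^ (b : ℕ) else 0 : (ZMod p)[X]).coeff k =
      if (b : ℕ) = k then (if Arg a s g b then a b else 0) else 0 := by
    intro b
    by_cases hb : (b : ℕ) = k
    · rw [if_pos hb]
      split_ifs
      · rw [coeff_C_mul, coeff_X_pow, if_pos hb.symm, mul_one]
      · rw [coeff_zero]
    · rw [if_neg hb]
      split_ifs
      · rw [coeff_C_mul, coeff_X_pow, if_neg (fun h => hb h.symm), mul_zero]
      · rw [coeff_zero]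
  rw [Finset.sum_congr rfl fun b _ => h1 b]
  by_cases hk : k < D
  · rw [dif_pos hk, Finset.sum_eq_single (⟨k, hk⟩ : Fin D)]
    · rw [if_pos rfl]
    · intro b _ hb
      rw [if_neg]
      intro h
      exact hb (Fin.ext h)
    · intro h
      exact absurd (Finset.mem_univ _) h
  · rw [dif_neg hk]
    refine Finset.sum_eq_zero fun b _ => ?_
    rw [if_neg]
    intro h
    exact hk (h ▸ b.2)

theorem RR_eval (a : Fin D → ZMod p) (s : Fin D → ℤ) (g : ℤ) (z : ZMod p) :
    (RR a s g).eval z = Sp a s g z := by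
  classical
  unfold RR Sp
  rw [eval_finset_sum]
  refine Finset.sum_congr rfl fun k _ => ?_
  split_ifs
  · rw [eval_mul, eval_C, eval_pow, eval_X]
  · rw [eval_zero]

theorem RR_deriv_eval (a : Fin D → ZMod p) (s : Fin D → ℤ) (g : ℤ) (z : ZMod p) :
    (derivative (RR a s g)).eval z = Sd a s g z := by
  classical
  unfold RR Sd
  rw [derivative_sum, eval_finset_sum]
  refine Finset.sum_congr rfl fun k _ => ?_
  split_ifs
  · rw [derivative_C_mul_X_pow, eval_mul, eval_C, eval_pow, eval_X]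
    ring
  · rw [derivative_zero, eval_zero]

end

variable {p : ℕ} [Fact p.Prime] {K : Type} [Field K]

theorem nat_val (A : AcF0 p K) (hres : ResStmt) (n : ℕ) (h1 : 0 < n) (h2 : n < p) :
    (n : K) ≠ 0 ∧ A.ac (n : K) = (n : ZMod p) ∧ A.v (n : K) = 0 := by
  have hr := hres p K A
  induction n, h1 using Nat.le_induction with
  | base =>
    rw [Nat.cast_one, Nat.cast_one]
    exact ⟨one_ne_zero, hr.1, hr.2.1⟩
  | succ n hn ih =>
    obtain ⟨i1, i2, i3⟩ := ih (by omega)
    have hne : ((n : ZMod p) + 1) ≠ 0 := by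
      intro h
      have h3 : ((n + 1 : ℕ) : ZMod p) = 0 := by
        push_cast
        exact h
      rw [ZMod.natCast_eq_zero_iff] at h3
      have := Nat.le_of_dvd (by omega) h3
      omega
    have h4 := A.add_eq (n : K) 1 i1 one_ne_zero (by rw [i3, hr.2.1]) (by rw [i2, hr.1]; exact hne)
    push_cast
    refine ⟨?_, ?_, ?_⟩
    · intro h
      rw [h, (A.ac_zero 0).2 rfl, i2, hr.1] at h4
      exact hne h4.2.symm
    · rw [h4.2, i2, hr.1]
    · rw [h4.1, i3]

theorem step (A : AcF0 p K) (hres : ResStmt) (D : ℕ) (hDp : D ≤ p) (W : K[X])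
    (hW : W.natDegree < D) (g : ℤ) (hne : derivative (RR (A.cac D W) (A.cv D W) g) ≠ 0) :
    RR (A.cac D (derivative W)) (A.cv D (derivative W)) g =
      derivative (RR (A.cac D W) (A.cv D W) g) := by
  classical
  -- coefficients of the derivative
  have hc : ∀ k : ℕ, (derivative W).coeff k = W.coeff (k + 1) * ((k : K) + 1) :=
    fun k => coeff_derivative W k
  have hz : ∀ k : ℕ, k + 1 < D → (W.coeff (k + 1) ≠ 0 → (derivative W).coeff k ≠ 0 ∧
      A.ac ((derivative W).coeff k) = A.ac (W.coeff (k + 1)) * ((k : ZMod p) + 1) ∧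
      A.v ((derivative W).coeff k) = A.v (W.coeff (k + 1))) := by
    intro k hk h
    have h1 := nat_val A hres (k + 1) (by omega) (by omega)
    push_cast at h1
    rw [hc k]
    refine ⟨mul_ne_zero h h1.1, ?_, ?_⟩
    · rw [A.ac_mul, h1.2.1]
    · rw [A.v_mul _ _ h h1.1, h1.2.2, add_zero]
  -- an argument index which is at least 1
  obtain ⟨l0, hl0, hl0A⟩ : ∃ l0 : Fin D, 1 ≤ (l0 : ℕ) ∧ Arg (A.cac D W) (A.cv D W) g l0 := by
    by_contra hcon
    push Not at hcon
    apply hne
    ext k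
    rw [coeff_derivative, RR_coeff, coeff_zero]
    by_cases hk : k + 1 < D
    · rw [dif_pos hk, if_neg (hcon ⟨k + 1, hk⟩ (by simp)), zero_mul]
    · rw [dif_neg hk, zero_mul]
  have hacne : ∀ x : K, A.ac x ≠ 0 ↔ x ≠ 0 := fun x => not_congr (A.ac_zero x)
  have hArg : ∀ (k : ℕ) (hk : k < D) (hk' : k + 1 < D),
      Arg (A.cac D (derivative W)) (A.cv D (derivative W)) g ⟨k, hk⟩ ↔
        Arg (A.cac D W) (A.cv D W) g ⟨k + 1, hk'⟩ := by
    intro k hk hk'
    constructor
    · rintro ⟨h1, h2⟩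
      have h1' : (derivative W).coeff k ≠ 0 := (hacne _).1 h1
      have h3 : W.coeff (k + 1) ≠ 0 := by
        intro h
        rw [hc k, h, zero_mul] at h1'
        exact h1' rfl
      refine ⟨(hacne _).2 h3, fun l hl => ?_⟩
      have h4 := hl0A.2 l hl
      refine le_trans ?_ h4
      -- compare with l0
      have h5 : (l0 : ℕ) - 1 < D := by omega
      have h6 : W.coeff (l0 : ℕ) ≠ 0 := (hacne _).1 hl0A.1
      have e1 : (l0 : ℕ) - 1 + 1 = l0 := by omega
      have h7 := hz ((l0 : ℕ) - 1) (by omega) (by rw [e1]; exact h6)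
      have h8 := h2 ⟨(l0 : ℕ) - 1, h5⟩ ((hacne _).2 h7.1)
      have h9 := hz k hk' h3
      show A.v (W.coeff (k + 1)) + ((k + 1 : ℕ) : ℤ) * g ≤ A.v (W.coeff (l0 : ℕ)) + ((l0 : ℕ) : ℤ) * g
      have h10 : A.v ((derivative W).coeff k) + ((k : ℕ) : ℤ) * g ≤
        A.v ((derivative W).coeff ((l0 : ℕ) - 1)) + (((l0 : ℕ) - 1 : ℕ) : ℤ) * g := h8
      rw [h9.2.2, h7.2.2, e1] at h10
      have e2 : (((l0 : ℕ) - 1 : ℕ) : ℤ) = ((l0 : ℕ) : ℤ) - 1 := by omega
      rw [e2] at h10
      push_cast
      linarith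
    · rintro ⟨h1, h2⟩
      have h3 : W.coeff (k + 1) ≠ 0 := (hacne _).1 h1
      have h9 := hz k hk' h3
      refine ⟨(hacne _).2 h9.1, fun l hl => ?_⟩
      have hl' : (derivative W).coeff (l : ℕ) ≠ 0 := (hacne _).1 hl
      have h4 : W.coeff ((l : ℕ) + 1) ≠ 0 := by
        intro h
        rw [hc l, h, zero_mul] at hl'
        exact hl' rfl
      have h5 : (l : ℕ) + 1 < D := by
        have := le_natDegree_of_ne_zero h4
        omega
      have h6 := hz l h5 h4
      have h7 := h2 ⟨(l : ℕ) + 1, h5⟩ ((hacne _).2 h4)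
      have h8 : A.v (W.coeff (k + 1)) + ((k + 1 : ℕ) : ℤ) * g ≤
        A.v (W.coeff ((l : ℕ) + 1)) + (((l : ℕ) + 1 : ℕ) : ℤ) * g := h7
      show A.v ((derivative W).coeff k) + ((k : ℕ) : ℤ) * g ≤
        A.v ((derivative W).coeff (l : ℕ)) + ((l : ℕ) : ℤ) * g
      rw [h9.2.2, h6.2.2]
      push_cast at h8
      linarith
  ext k
  rw [coeff_derivative, RR_coeff, RR_coeff]
  by_cases hk : k + 1 < D
  · have hk0 : k < D := by omega
    rw [dif_pos hk, dif_pos hk0]
    by_cases hA : Arg (A.cac D W) (A.cv D W) g ⟨k + 1, hk⟩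
    · rw [if_pos hA, if_pos ((hArg k hk0 hk).2 hA)]
      have h3 : W.coeff (k + 1) ≠ 0 := (hacne _).1 hA.1
      exact (hz k hk h3).2.1
    · rw [if_neg hA, if_neg (fun h => hA ((hArg k hk0 hk).1 h)), zero_mul]
  · rw [dif_neg hk, zero_mul]
    by_cases hk0 : k < D
    · rw [dif_pos hk0, if_neg]
      rintro ⟨h1, -⟩
      have h1' : (derivative W).coeff k ≠ 0 := (hacne _).1 h1
      rw [hc k, coeff_eq_zero_of_natDegree_lt (by omega), zero_mul] at h1'
      exact h1' rfl
    · rw [dif_neg hk0]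

theorem iter (A : AcF0 p K) (hres : ResStmt) (D : ℕ) (hDp : D ≤ p) (W : K[X])
    (hW : W.natDegree < D) (g : ℤ) (n : ℕ)
    (hne : derivative^[n] (RR (A.cac D W) (A.cv D W) g) ≠ 0) :
    (derivative^[n] W).natDegree < D ∧
    RR (A.cac D (derivative^[n] W)) (A.cv D (derivative^[n] W)) g =
      derivative^[n] (RR (A.cac D W) (A.cv D W) g) := by
  induction n with
  | zero => exact ⟨hW, rfl⟩
  | succ n ih =>
    rw [Function.iterate_succ_apply'] at hne
    have h1 : derivative^[n] (RR (A.cac D W) (A.cv D W) g) ≠ 0 := by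
      intro h
      rw [h, derivative_zero] at hne
      exact hne rfl
    obtain ⟨i1, i2⟩ := ih h1
    have h2 := step A hres D hDp (derivative^[n] W) i1 g (by rw [i2]; exact hne)
    rw [Function.iterate_succ_apply', Function.iterate_succ_apply']
    refine ⟨lt_of_le_of_lt (natDegree_derivative_le _) (by omega), ?_⟩
    rw [h2, i2]

theorem nca (hhen : HenStmt) (hres : ResStmt) : NcaStmt := by
  classical
  intro p _ K _ A W D hW hD hDp z g hz hSp
  set R := RR (A.cac D W) (A.cv D W) g with hR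
  have hR0 : R ≠ 0 := by
    -- an argument index exists
    have hne : (Finset.univ.filter fun k : Fin D => A.cac D W k ≠ 0).Nonempty := by
      refine ⟨⟨W.natDegree, hD⟩, ?_⟩
      rw [Finset.mem_filter]
      refine ⟨Finset.mem_univ _, fun h => ?_⟩
      have h1 : W.coeff W.natDegree = 0 := (A.ac_zero _).1 h
      exact hW (leadingCoeff_eq_zero.1 h1)
    obtain ⟨k, hk, hmin⟩ := Finset.exists_min_image _
      (fun k : Fin D => A.cv D W k + (k : ℕ) * g) hne
    rw [Finset.mem_filter] at hk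
    have hA : Arg (A.cac D W) (A.cv D W) g k :=
      ⟨hk.2, fun l hl => hmin l (Finset.mem_filter.2 ⟨Finset.mem_univ _, hl⟩)⟩
    intro h
    have h1 : R.coeff k = A.cac D W k := by
      rw [hR, RR_coeff, dif_pos k.2, if_pos hA]
    rw [h, coeff_zero] at h1
    exact hA.1 h1.symm
  have hRdeg : R.natDegree < D := by
    by_contra hcon
    push Not at hcon
    have h1 : R.coeff R.natDegree = 0 := by
      rw [hR, RR_coeff, dif_neg (not_lt.2 hcon)]
    exact hR0 (leadingCoeff_eq_zero.1 h1)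
  have hex : ∃ n, (derivative^[n] R).eval z ≠ 0 := by
    by_contra hcon
    push Not at hcon
    apply hR0
    apply taylor_injective z
    rw [map_zero]
    ext n
    rw [taylor_coeff, coeff_zero]
    by_cases hn : n < p
    · have h1 : (n.factorial : ZMod p) ≠ 0 := by
        rw [Ne, ZMod.natCast_eq_zero_iff, (Fact.out : p.Prime).dvd_factorial]
        omega
      have h2 : (n.factorial : (ZMod p)[X]) * hasseDeriv n R = derivative^[n] R := by
        have := congrFun (factorial_smul_hasseDeriv (R := ZMod p) (k := n)) R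
        rw [← this]
        simp [nsmul_eq_mul]
      have h3 := congrArg (eval z) h2
      rw [hcon n, eval_mul, eval_natCast] at h3
      exact (mul_eq_zero.1 h3).resolve_left h1
    · have h1 : hasseDeriv n R = 0 := by
        apply hasseDeriv_eq_zero_of_lt_natDegree
        omega
      rw [h1, eval_zero]
  obtain ⟨n, hn, hmin⟩ : ∃ n, (derivative^[n] R).eval z ≠ 0 ∧
      ∀ m < n, (derivative^[m] R).eval z = 0 := by
    refine ⟨Nat.find hex, Nat.find_spec hex, fun m hm => ?_⟩
    have := Nat.find_min hex hm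
    push Not at this
    exact this
  have hn0 : n ≠ 0 := by
    rintro rfl
    apply hn
    rw [Function.iterate_zero, id_eq, hR, RR_eval]
    exact hSp
  obtain ⟨s, rfl⟩ := Nat.exists_eq_succ_of_ne_zero hn0
  have hsne : derivative^[s] R ≠ 0 := by
    intro h
    rw [Nat.succ_eq_add_one, Function.iterate_succ_apply', h, derivative_zero, eval_zero] at hn
    exact hn rfl
  obtain ⟨h1, h2⟩ := iter A.toAcF0 hres D hDp W hD g s hsne
  set W' := derivative^[s] W with hW'
  have hW'0 : W' ≠ 0 := by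
    intro h
    apply hsne
    rw [← h2, h]
    ext k
    rw [RR_coeff, coeff_zero]
    split_ifs with h3 h4
    · exfalso
      apply h4.1
      show A.ac ((0 : K[X]).coeff _) = 0
      rw [coeff_zero]
      exact (A.ac_zero 0).2 rfl
    · rfl
    · rfl
  have hS1 : Sp (A.cac D W') (A.cv D W') g z = 0 := by
    rw [← RR_eval, h2]
    exact hmin s (Nat.lt_succ_self s)
  have hS2 : Sd (A.cac D W') (A.cv D W') g z ≠ 0 := by
    rw [← RR_deriv_eval, h2, ← Function.iterate_succ_apply' derivative s R]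
    exact hn
  obtain ⟨t, t1, t2, t3, t4⟩ := hhen p K A W' D hW'0 h1 z g hz hS1 hS2
  refine ⟨s, t, hW'0, t4, t1, t2, t3, fun hSd => ?_⟩
  by_contra hs
  have hs0 : s = 0 := by omega
  subst hs0
  exact hS2 hSd

end Pool.Agent.FHQ.H23
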