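import Pool.Agent.Helper10_FHQ.PWR
import Pool.Agent.Helper13_FHQ.LEX
import Pool.Agent.Helper13_FHQ.PR
import Pool.Agent.Helper14_FHQ.OC1
import Pool.Agent.Helper14_FHQ.XT1
import Pool.Agent.Helper15_FHQ.EXQ
import Pool.Agent.Helper1_FHQ.ZFN
import Pool.Agent.Helper1_FHQ.ZLF
import Pool.Agent.Helper23_FHQ.EXP
import Pool.Agent.Helper23_FHQ.NCA
import Pool.Agent.Helper25_FHQ.DSN
import Pool.Agent.Helper25_FHQ.RES
import Pool.Agent.Helper25_FHQ.RTZ
import Pool.Agent.Helper25_FHQ.UBO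
import Pool.Agent.Helper27_FHQ.ZGF
import Pool.Agent.Helper2_FHQ.ABS
import Pool.Agent.Helper2_FHQ.DVE
import Pool.Agent.Helper2_FHQ.LDJ
import Pool.Agent.Helper32_FHQ.UBE
import Pool.Agent.Helper33_FHQ.BAS
import Pool.Agent.Helper33_FHQ.LFT
import Pool.Agent.Helper33_FHQ.OC0
import Pool.Agent.Helper33_FHQ.R2
import Pool.Agent.Helper35_FHQ.LOC
import Pool.Agent.Helper35_FHQ.RTS
import Pool.Agent.Helper35_FHQ.STP
import Pool.Agent.Helper39_FHQ.BAL
import Pool.Agent.Helper39_FHQ.HEN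
import Pool.Agent.Helper39_FHQ.PSB
import Pool.Agent.Helper39_FHQ.RSB
import Pool.Agent.Helper3_FHQ.FH2
import Pool.Agent.Helper3_FHQ.ZLO
import Pool.Agent.Helper40_FHQ.ZCS
import Pool.Agent.Helper41_FHQ.OC2
import Pool.Agent.Helper41_FHQ.OVT
import Pool.Agent.Helper44_FHQ.FIN
import Pool.Agent.Helper51_FHQ.LDC
import Pool.Agent.Helper51_FHQ.RED
import Pool.Agent.Helper52_FHQ.AVG
import Pool.Agent.Helper52_FHQ.BLC
import Pool.Agent.Helper52_FHQ.EXT
import Pool.Agent.Helper52_FHQ.PIX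
import Pool.Agent.Helper52_FHQ.TM3S
import Pool.Agent.Helper53_FHQ.CHD
import Pool.Agent.Helper53_FHQ.LIV
import Pool.Agent.Helper53_FHQ.PDC
import Pool.Agent.Helper55_FHQ.QE2
import Pool.Agent.Helper59_FHQ.NRM
import Pool.Agent.Helper59_FHQ.NVN
import Pool.Agent.Helper62_FHQ.DCH
import Pool.Agent.Helper62_FHQ.ZLS
import Pool.Agent.Helper65_FHQ.TM1
import Pool.Agent.Helper67_FHQ.FHD
import Pool.Agent.Helper69_FHQ.FH1
import Pool.Agent.Helper69_FHQ.LOW
import Pool.Agent.Helper69_FHQ.PER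
import Pool.Agent.Helper69_FHQ.XT
import Pool.Agent.Helper6_FHQ.UBS
import Pool.Agent.Helper70_FHQ.BF
import Pool.Agent.Helper70_FHQ.PIS
import Pool.Agent.Helper70_FHQ.PQE
import Pool.Agent.Helper70_FHQ.TWI
import Pool.Agent.Helper70_FHQ.WTR
import Pool.Agent.Helper72_FHQ.QE1
import Pool.Agent.Helper76_FHQ.LDT
import Pool.Agent.Helper77_FHQ.HOM
import Pool.Agent.Helper77_FHQ.RGS
import Pool.Agent.Helper77_FHQ.ZGU
import Pool.Agent.Helper81_FHQ.BXD
import Pool.Agent.Helper81_FHQ.OV1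
import Pool.Agent.Helper81_FHQ.XT2
import Pool.Agent.Helper83_FHQ.ZQP
import Pool.Agent.Helper84_FHQ.TM2
import Pool.Agent.Helper84_FHQ.WEI
import Pool.Agent.Helper86_FHQ.DLG
import Pool.Agent.Helper86_FHQ.PAS
import Pool.Agent.Helper86_FHQ.RDP
import Pool.Agent.Helper86_FHQ.SUP
import Pool.Agent.Helper89_FHQ.CHS
import Pool.Agent.Helper8_FHQ.DSC
import Pool.Agent.Helper8_FHQ.ORD
import Pool.Agent.Helper8_FHQ.PII
import Pool.Agent.Helper8_FHQ.SAT
import Pool.Agent.Helper90_FHQ.AVS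
import Pool.Agent.Helper90_FHQ.BIP
import Pool.Agent.Helper92_FHQ.TUP
import Pool.Agent.Helper94_FHQ.BXC
import Pool.Agent.Helper94_FHQ.CHN
import Pool.Agent.Helper95_FHQ.UBX
import Pool.Agent.Helper97_FHQ.BOS
import Pool.Agent.Helper97_FHQ.NEA
import Pool.Agent.Helper97_FHQ.RSC
import Pool.Agent.Helper9_FHQ.FHK
import Pool.Agent.Helper9_FHQ.ZSF
import Pool.Agent.FHQ.StmtsZ

/-!
# Squad FHQ: assembly
-/

noncomputable section

namespace Pool.Agent.FHQ.H23

theorem tup_all : TupStmt :=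
  H92.tup

theorem avs_all : AvsStmt :=
  H90.avs

theorem bxd_all : BxdStmt :=
  H81.bxd avs_all

theorem sup_all : SupStmt :=
  H86S.sup bxd_all

theorem r2_all : R2Stmt :=
  H33.r2

theorem pr_all : PrStmt :=
  H13.pr r2_all

theorem bxc_all : BxcStmt :=
  H94.bxc pr_all

theorem hom_all : HomStmt :=
  H77.hom pr_all

theorem lex_all : LexStmt :=
  H13.lex hom_all

theorem bal_all : BalStmt :=
  H39.bal

theorem chn_all : ChnStmt :=
  H94.chn bal_all

theorem res_all : ResStmt :=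
  H25.res

theorem rsc_all : RscStmt :=
  H97.rsc res_all

theorem oc0_all : Oc0Stmt :=
  H33.oc0 chn_all rsc_all bxc_all bxd_all bal_all res_all

theorem oc1_all : Oc1Stmt :=
  H14.oc1 chn_all

theorem dlg_all : DlgStmt :=
  H86D.dlg

theorem oc2_all : Oc2Stmt :=
  H41.oc2 chn_all bxc_all dlg_all bal_all

theorem ov1_all : Ov1Stmt :=
  H81.ov1 bxc_all lex_all oc0_all oc1_all oc2_all

theorem ovt_all : OvtStmt :=
  H41.ovt bxc_all ov1_all

theorem rsb_all : RsbStmt :=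
  H39.rsb

theorem psb_all : PsbStmt :=
  H39.psb

theorem ubs_all : UbsStmt :=
  H6.ubs rsb_all psb_all

theorem ubo_all : UboStmt :=
  H25.ubo

theorem pdc_all : PdcStmt :=
  H53.pdc ubs_all ubo_all

theorem hen_all : HenStmt :=
  H39.hen res_all

theorem nca_all : NcaStmt :=
  H23.nca hen_all res_all

theorem exp_all : ExpStmt :=
  H23.exp res_all

theorem nea_all : NeaStmt :=
  H97.nea nca_all exp_all bal_all

theorem qe1_all : Qe1Stmt :=
  H72.qe1 nea_all exp_all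

theorem ube_all : UbeStmt :=
  H32.ube

theorem rtz_all : RtzStmt :=
  H25.rtz ube_all ubs_all

theorem qe2_all : Qe2Stmt :=
  H55.qe2 nea_all exp_all hen_all res_all

theorem ubx_all : UbxStmt :=
  H95.ubx ubo_all ubs_all ube_all

theorem rts_all : RtsStmt :=
  H35.rts qe2_all ubx_all pdc_all ubs_all ube_all

theorem exq_all : ExqStmt :=
  H15.exq qe1_all rtz_all rts_all ubx_all pdc_all

theorem pas_all : PasStmt :=
  H86P.pas pdc_all exq_all

theorem tm1_all : Tm1Stmt :=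
  H65.tm1 nea_all exp_all

theorem sat_all : SatStmt :=
  H8.sat

theorem fin_all : FinStmt :=
  H44.fin

theorem abs_all : AbsStmt :=
  H2.abs'

theorem bas_all : BasStmt :=
  H33.bas

theorem lft_all : LftStmt :=
  H33.lft bas_all

theorem dve_all : DveStmt :=
  H2.dve

theorem red_all : RedStmt :=
  H51.red

theorem loc_all : LocStmt :=
  H35.loc

theorem nrm_all : NrmStmt :=
  H59.nrm

theorem ord_all : OrdStmt :=
  H8.ord_

theorem nvn_all : NvnStmt :=
  H59.nvn nrm_all loc_all ord_all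

theorem stp_all : StpStmt :=
  H35.stp dve_all red_all loc_all nrm_all nvn_all

theorem wei_all : WeiStmt :=
  H84.wei stp_all nrm_all

theorem wtr_all : WtrStmt :=
  H70.wtr lft_all wei_all

theorem xt1_all : Xt1Stmt :=
  H14.xt1 fin_all abs_all lft_all wtr_all bas_all

theorem dsc_all : DscStmt :=
  H8.dsc

theorem pix_all : PixStmt :=
  H52.pix dsc_all

theorem ldj_all : LdjStmt :=
  H2.ldj

theorem ext_all : ExtStmt :=
  H52.ext ldj_all

theorem xt2_all : Xt2Stmt :=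
  H81.xt2 pix_all ext_all bas_all

theorem xt_all : XtStmt :=
  H69.xt xt1_all xt2_all sat_all pix_all bas_all

theorem bf_all : BfStmt :=
  H70.bf xt_all sat_all

theorem pis_all : PisStmt :=
  H70.pis

theorem rdp_all : RdpStmt :=
  H86.rdp bf_all pis_all bas_all

theorem pii_all : PiiStmt :=
  H8.pii

theorem dch_all : DchStmt :=
  H62.dch sat_all xt_all rdp_all pii_all bas_all

theorem tm2_all : Tm2Stmt :=
  H84.tm2 dch_all rsb_all

theorem pqe_all : PqeStmt :=
  H70.pqe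

theorem per_all : PerStmt :=
  H69.per pqe_all

theorem twi_all : TwiStmt :=
  H70.twi

theorem liv_all : LivStmt :=
  H53.liv

theorem tam_all : TamStmt :=
  H52.tam' pas_all tm1_all tm2_all per_all psb_all twi_all liv_all

theorem ldc_all : LdcStmt :=
  H51.ldc

theorem ldt_all : LdtStmt :=
  H76.ldt ldc_all

theorem chs_all : ChsStmt :=
  H89.chs ovt_all tam_all ldt_all

theorem chd_all : ChdStmt :=
  H53.chd chs_all

theorem pwr_all : PwrStmt :=
  H10.pwr

theorem rgs_all : RgsStmt :=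
  H77.rgs

theorem dsn_all : DsnStmt :=
  H25.dsn

theorem blc_all : BlcStmt :=
  H52.blc pwr_all rgs_all dsn_all bal_all res_all

theorem avg_all : AvgStmt :=
  H52.avg rsc_all

theorem bos_all : BosStmt :=
  H97.bos avg_all

theorem low_all : LowStmt :=
  H69.low dlg_all res_all

theorem bip_all : BipStmt :=
  H90.bip blc_all bos_all low_all

theorem fh1_all : Fh1Stmt :=
  H69.fh1 tam_all bip_all ldc_all

theorem fh2_all : Fh2Stmt :=
  H3.fh2 ldt_all

theorem fhk_all : FhkStmt :=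
  H9.fhk fh1_all fh2_all

theorem zlf_all : ZlfStmt :=
  H1.zlf

theorem zsf_all : ZsfStmt :=
  H9.zsf zlf_all

theorem zlo_all : ZloStmt :=
  H3.zlo

theorem zcs_all : ZcsStmt :=
  H40.zcs zlo_all

theorem zgf_all : ZgfStmt :=
  H27.zgf

theorem zgu_all : ZguStmt :=
  H77.zgu

theorem zfn_all : ZfnStmt :=
  H1.zfn zsf_all zcs_all zgf_all zgu_all

theorem fhd_all : FhdStmt :=
  H67.fhd tup_all sup_all chd_all fhk_all

theorem zqp_all : ZqpStmt :=
  H83.zqp

theorem zls_all : ZlsStmt :=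
  H62.zls

theorem main (p : ℕ → ℕ) [∀ i, Fact (p i).Prime] (U : Ultrafilter ℕ)
    (hU : ∀ q : ℕ, q.Prime → ∀ᶠ i in (U : Filter ℕ), p i ≠ q)
    (d dK dR nK nR : ℕ) (hd : dK + dR ≤ d) (φ : Fml (dK + nK) (dR + nR)) :
    FHPm (UP (fun i => ℚ_[p i]) U) (UM (fun i => ℚ_[p i]) U fun i => mxQ (p i)) φ (d + 1) ∧
    FHPm (UP (fun i => LaurentSeries (ZMod (p i))) U)
      (UM (fun i => LaurentSeries (ZMod (p i))) U fun i => mxL (p i)) φ (d + 1) :=
  ⟨zfn_all fhd_all p U hU (fun i => ℚ_[p i]) (fun i => mxQ (p i)) (fun i => zqp_all (p i))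
      d dK dR nK nR φ hd,
    zfn_all fhd_all p U hU (fun i => LaurentSeries (ZMod (p i))) (fun i => mxL (p i))
      (fun i => zls_all (p i)) d dK dR nK nR φ hd⟩

end Pool.Agent.FHQ.H23
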