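import Pool.Agent.FHQ.StmtsU

noncomputable section

namespace Pool.Agent.FHQ.H23

theorem sat : SatStmt := by
  classical
  intro U hU Z _ C h
  have key : ∀ i, ∃ z : Z i, ∀ k, k ≤ i → (∃ z : Z i, ∀ j ≤ k, C j i z) → ∀ j ≤ k, C j i z := by
    intro i
    by_cases hex : ∃ k, k ≤ i ∧ ∃ z : Z i, ∀ j ≤ k, C j i z
    · obtain ⟨k1, hk1, hP1⟩ := hex
      have hspec := Nat.findGreatest_spec (P := fun k => ∃ z : Z i, ∀ j ≤ k, C j i z) hk1 hP1
      obtain ⟨z, hz⟩ := hspec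
      refine ⟨z, fun k hk hPk j hj => hz j (hj.trans ?_)⟩
      exact Nat.le_findGreatest hk hPk
    · refine ⟨Classical.arbitrary _, fun k hk hPk => absurd ⟨k, hk, hPk⟩ hex⟩
  choose z hz using key
  refine ⟨z, fun j => ?_⟩
  filter_upwards [hU j, h j] with i h1 h2
  exact hz i j h1 h2 j le_rfl

end Pool.Agent.FHQ.H23
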